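import Pool.Agent.SSF.Stmts

set_option autoImplicit false

open Set Topology Filter

namespace Pool.Agent.SSF.H42

open Pool.Agent.LSG Pool.Agent.LPR Pool.Agent.SSF

theorem tube (S M : Type) [TopologicalSpace S] [TopologicalSpace M] [CompactSpace M]
    (F : (S × M) × OnePoint ℕ → ℝ) (hF : Continuous F)
    (h0 : ∀ x, F (x, OnePoint.infty) = 0) (s₀ : S) (ε : ℝ) (hε : 0 < ε) :
    ∃ W ∈ 𝓝 s₀, ∃ N : ℕ, ∀ s ∈ W, ∀ u : M, ∀ n : ℕ, N ≤ n →
      |F ((s, u), ((n : ℕ) : OnePoint ℕ))| < ε := by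
  have hU : IsOpen {z : S × (M × OnePoint ℕ) | |F ((z.1, z.2.1), z.2.2)| < ε} := by
    apply isOpen_lt _ continuous_const
    exact (hF.comp (by fun_prop)).abs
  obtain ⟨W1, W2, hW1, hW2, h1, h2, h3⟩ := generalized_tube_lemma (isCompact_singleton (x := s₀))
    ((isCompact_univ (X := M)).prod (isCompact_singleton (x := (OnePoint.infty : OnePoint ℕ)))) hU
    (by
      rintro ⟨s, u, n⟩ ⟨hs, -, hn⟩
      simp only [mem_singleton_iff] at hs hn
      subst hs hn
      change |F ((s, u), OnePoint.infty)| < ε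
      rw [h0, abs_zero]
      exact hε)
  obtain ⟨V1, V2, hV1, hV2, h4, h5, h6⟩ := generalized_tube_lemma (isCompact_univ (X := M))
    (isCompact_singleton (x := (OnePoint.infty : OnePoint ℕ))) hW2 h2
  have ht : Tendsto (fun n : ℕ => (n : OnePoint ℕ)) atTop (𝓝 OnePoint.infty) := by
    rw [← Nat.cofinite_eq_atTop, ← cocompact_eq_cofinite ℕ, ← coclosedCompact_eq_cocompact]
    exact OnePoint.tendsto_coe_infty
  have hV : V2 ∈ 𝓝 (OnePoint.infty : OnePoint ℕ) := hV2.mem_nhds (h5 rfl)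
  obtain ⟨N, hN⟩ := eventually_atTop.1 (ht.eventually hV)
  refine ⟨W1, hW1.mem_nhds (h1 rfl), N, fun s hs u n hn => ?_⟩
  exact h3 (mk_mem_prod hs (h6 (mk_mem_prod (h4 (mem_univ u)) (hN n hn))))

theorem gmc : GmcStmt := by
  intro S M _ _ _ p η δ ψ F hc hinj hne hd hψ hF h0
  have p1 : ∀ s n u, Gm η ψ F (s, η n u) = ψ (s, u) * F ((s, u), ((n : ℕ) : OnePoint ℕ)) := by
    intro s n u
    have h : ∃ q : ℕ × M, η q.1 q.2 = (s, η n u).2 := ⟨(n, u), rfl⟩
    unfold Gm
    rw [dif_pos h]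
    obtain ⟨h1, h2⟩ := hinj _ _ _ _ (Classical.choose_spec h)
    rw [h2, h1]
  have p2 : ∀ s, Gm η ψ F (s, p) = 0 := by
    intro s
    unfold Gm
    rw [dif_neg]
    rintro ⟨q, hq⟩
    exact hne _ _ hq
  have hr : ∀ n, IsClosed (range (η n)) := fun n => (isCompact_range (hc n)).isClosed
  -- far from `p` only finitely many copies
  have hfar : ∀ r : ℝ, 0 < r → ∃ N : ℕ, ∀ n, N ≤ n → ∀ u, dist (η n u) p < r := by
    intro r hr0
    obtain ⟨N, hN⟩ := exists_nat_gt (|δ| / r)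
    refine ⟨N, fun n hn u => lt_of_le_of_lt (hd n u) ?_⟩
    have h1 : |δ| / r < (n : ℝ) + 1 := by
      have : (N : ℝ) ≤ n := by exact_mod_cast hn
      linarith
    have h2 : (0 : ℝ) < (n : ℝ) + 1 := by positivity
    rw [div_lt_iff₀ hr0] at h1
    rw [div_lt_iff₀ h2]
    calc δ ≤ |δ| := le_abs_self δ
      _ < ((n : ℝ) + 1) * r := h1
      _ = r * ((n : ℝ) + 1) := mul_comm _ _
  -- a neighbourhood of a point different from `p`
  have hloc : ∀ a : M, a ≠ p → ∀ E : Set ℕ, (∀ n ∈ E, a ∉ range (η n)) →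
      ∃ V : Set M, IsOpen V ∧ a ∈ V ∧ ∀ b ∈ V, b ≠ p ∧ ∀ n ∈ E, b ∉ range (η n) := by
    intro a ha E hE
    have hr0 : 0 < dist a p / 2 := by
      have := dist_pos.2 ha
      linarith
    obtain ⟨N, hN⟩ := hfar _ hr0
    refine ⟨Metric.ball a (dist a p / 2) ∩ ⋂ n ∈ {n | n ∈ E ∧ n < N}, (range (η n))ᶜ, ?_, ?_, ?_⟩
    · refine Metric.isOpen_ball.inter ?_
      refine Set.Finite.isOpen_biInter ?_ fun n _ => (hr n).isOpen_compl
      exact (Set.finite_lt_nat N).subset fun n hn => hn.2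
    · refine ⟨Metric.mem_ball_self hr0, ?_⟩
      simp only [mem_iInter]
      intro n hn
      exact hE n hn.1
    · rintro b ⟨hb1, hb2⟩
      rw [Metric.mem_ball] at hb1
      simp only [mem_iInter] at hb2
      constructor
      · rintro rfl
        rw [dist_comm] at hb1
        have := dist_nonneg (x := a) (y := b)
        linarith
      · rintro n hn ⟨u, rfl⟩
        by_cases hnN : n < N
        · exact hb2 n ⟨hn, hnN⟩ ⟨u, rfl⟩
        · have h1 := hN n (by omega) u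
          have h2 := dist_triangle a (η n u) p
          rw [dist_comm a (η n u)] at h2
          linarith
  have p3 : IsClosed (Lim p η) := by
    rw [← isOpen_compl_iff, isOpen_iff_mem_nhds]
    intro a ha
    have ha' : a ≠ p ∧ ∀ n u, η n u ≠ a := by
      constructor
      · intro h
        exact ha (Or.inl h)
      · intro n u h
        exact ha (Or.inr ⟨n, u, h⟩)
    obtain ⟨V, hV1, hV2, hV3⟩ := hloc a ha'.1 univ (fun n _ ⟨u, hu⟩ => ha'.2 n u hu)
    refine mem_of_superset (hV1.mem_nhds hV2) ?_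
    intro b hb hb'
    obtain ⟨h1, h2⟩ := hV3 b hb
    rcases hb' with h | ⟨n, u, h⟩
    · exact h1 h
    · exact h2 n (mem_univ n) ⟨u, h⟩
  refine ⟨p1, p2, p3, ?_⟩
  rintro ⟨s₀, a₀⟩ ⟨-, ha₀⟩
  rcases ha₀ with h | ⟨n, u₀, h⟩
  · change a₀ = p at h
    subst h
    rw [ContinuousWithinAt, p2, Metric.tendsto_nhds]
    intro ε hε
    obtain ⟨W, hW, N, hN⟩ := tube S M F hF h0 s₀ ε hε
    have hV : (⋂ n ∈ {n | n < N}, (range (η n))ᶜ) ∈ 𝓝 a₀ := by
      refine IsOpen.mem_nhds ?_ ?_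
      · refine Set.Finite.isOpen_biInter (Set.finite_lt_nat N) fun n _ => (hr n).isOpen_compl
      · simp only [mem_iInter]
        rintro n - ⟨u, hu⟩
        exact hne n u hu
    have hprod : W ×ˢ (⋂ n ∈ {n | n < N}, (range (η n))ᶜ) ∈ 𝓝 (s₀, a₀) := prod_mem_nhds hW hV
    filter_upwards [mem_nhdsWithin_of_mem_nhds hprod, self_mem_nhdsWithin]
    rintro ⟨s, a⟩ ⟨h1, h2⟩ ⟨-, h3⟩
    simp only [mem_iInter] at h2
    rcases h3 with h3 | ⟨n, u, h3⟩
    · change a = a₀ at h3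
      rw [h3, p2, dist_self]
      exact hε
    · change η n u = a at h3
      subst h3
      rw [p1, Real.dist_eq, sub_zero, abs_mul]
      have hnN : N ≤ n := by
        by_contra hlt
        exact h2 n (not_le.1 hlt) ⟨u, rfl⟩
      have h4 := hN s h1 u n hnN
      have h5 : |ψ (s, u)| ≤ 1 := by
        rw [abs_of_nonneg (hψ _).1]
        exact (hψ _).2
      calc |ψ (s, u)| * |F ((s, u), ((n : ℕ) : OnePoint ℕ))| ≤
          1 * |F ((s, u), ((n : ℕ) : OnePoint ℕ))| :=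
            mul_le_mul_of_nonneg_right h5 (abs_nonneg _)
        _ < ε := by rw [one_mul]; exact h4
  · change η n u₀ = a₀ at h
    subst h
    have hemb : IsEmbedding (fun x : S × M => (x.1, η n x.2)) := by
      have h1 : IsEmbedding (η n) :=
        ((hc n).isClosedEmbedding fun u u' h => (hinj n n u u' h).2).isEmbedding
      exact IsEmbedding.id.prodMap h1
    obtain ⟨V, hV1, hV2, hV3⟩ := hloc (η n u₀) (hne n u₀) {m | m ≠ n} (by
      rintro m hm ⟨u, hu⟩
      exact hm (hinj m n u u₀ hu).1)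
    have key : ContinuousWithinAt (Gm η ψ F) (range fun x : S × M => (x.1, η n x.2))
        (s₀, η n u₀) := by
      have h2 := hemb.isInducing.map_nhds_eq (s₀, u₀)
      rw [ContinuousWithinAt]
      change Tendsto (Gm η ψ F) (𝓝[range fun x : S × M => (x.1, η n x.2)]
        ((fun x : S × M => (x.1, η n x.2)) (s₀, u₀))) _
      rw [← h2, tendsto_map'_iff]
      have h3 : (Gm η ψ F ∘ fun x : S × M => (x.1, η n x.2)) =
          fun x => ψ x * F (x, ((n : ℕ) : OnePoint ℕ)) := by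
        funext x
        exact p1 x.1 n x.2
      rw [h3, p1]
      have h4 : Continuous fun x : S × M => ψ x * F (x, ((n : ℕ) : OnePoint ℕ)) :=
        ψ.continuous.mul (hF.comp (by fun_prop))
      exact h4.tendsto (s₀, u₀)
    refine key.mono_of_mem_nhdsWithin ?_
    have hprod : (univ : Set S) ×ˢ V ∈ 𝓝 (s₀, η n u₀) :=
      prod_mem_nhds univ_mem (hV1.mem_nhds hV2)
    filter_upwards [mem_nhdsWithin_of_mem_nhds hprod, self_mem_nhdsWithin]
    rintro ⟨s, a⟩ ⟨-, h1⟩ ⟨-, h2⟩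
    obtain ⟨h3, h4⟩ := hV3 a h1
    rcases h2 with h2 | ⟨m, u, h2⟩
    · exact absurd h2 h3
    · change η m u = a at h2
      by_cases hm : m = n
      · subst hm
        exact ⟨(s, u), by rw [← h2]⟩
      · exact absurd ⟨u, h2⟩ (h4 m hm)

end Pool.Agent.SSF.H42
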